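import Pool.Agent.G02.StmtsS

/-!
# Row T4A of squad G02: points of the isogenous fibre
-/

set_option autoImplicit false

namespace Pool.Agent.G02.H46

open Polynomial Pool.Agent.NJ Pool.Agent.GT.F Pool.Agent.G02

theorem t4a : T4aStmt := by
  intro K _ _ W e a b hR hT x y hxy
  obtain ⟨hb2, hb4, hb6⟩ := hR
  rw [WeierstrassCurve.Affine.equation_iff] at hxy
  simp only [WeierstrassCurve.b₂, WeierstrassCurve.b₄, WeierstrassCurve.b₆] at hb2 hb4 hb6
  by_cases hY : 2 * y + W.a₁ * x + W.a₃ = 0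
  · exact Or.inl hY
  right
  have h2 : (2 : K) ≠ 0 := two_ne_zero
  -- the key identity
  have key : (2 * y + W.a₁ * x + W.a₃) ^ 2 =
      4 * ((x - e) * ((x - e) ^ 2 + a * (x - e) + b)) := by
    linear_combination 4 * hxy + x ^ 2 * hb2 + 2 * x * hb4 + hb6
  set Y : K := (2 * y + W.a₁ * x + W.a₃) / 2 with hYd
  have hY0 : Y ≠ 0 := div_ne_zero hY h2
  have hYX : Y ^ 2 = (x - e) * ((x - e) ^ 2 + a * (x - e) + b) := by
    rw [hYd, div_pow, key]
    field_simp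
    ring
  have hX : x - e ≠ 0 := by
    intro h
    rw [h] at hYX
    apply hY0
    have : Y ^ 2 = 0 := by rw [hYX]; ring
    exact pow_eq_zero_iff (two_ne_zero) |>.mp this
  set X : K := x - e with hXd
  have hpt := hT (Y ^ 2 / X ^ 2) (Y * (X ^ 2 - b) / X ^ 2) ?_
  · simp only [zero_mul, add_zero] at hpt
    have h3 : Y * (X ^ 2 - b) / X ^ 2 = 0 := by
      have := mul_eq_zero.mp hpt
      rcases this with h | h
      · exact absurd h h2
      · exact h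
    have h5 : Y * (X ^ 2 - b) = 0 := by
      rcases div_eq_zero_iff.mp h3 with h | h
      · exact h
      · exact absurd h (pow_ne_zero _ hX)
    rcases mul_eq_zero.mp h5 with h | h
    · exact absurd h hY0
    · exact sub_eq_zero.mp h
  · rw [WeierstrassCurve.Affine.equation_iff]
    simp only [zero_mul, add_zero]
    have h6 : Y ^ 2 * (X ^ 2 - b) ^ 2 * X ^ 2 =
        Y ^ 2 * (Y ^ 4 + (-2 * a) * Y ^ 2 * X ^ 2 + (a ^ 2 - 4 * b) * X ^ 4) := by
      have h7 : Y ^ 2 - a * X ^ 2 = X * (X ^ 2 + b) := by rw [hYX]; ring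
      linear_combination (- Y ^ 2 * (Y ^ 2 - a * X ^ 2 + X * (X ^ 2 + b))) * h7
    have hX2 : X ^ 2 ≠ 0 := pow_ne_zero 2 hX
    have hX6 : X ^ 6 ≠ 0 := pow_ne_zero 6 hX
    rw [← mul_right_inj' hX6]
    have e1 : X ^ 6 * (Y * (X ^ 2 - b) / X ^ 2) ^ 2 = Y ^ 2 * (X ^ 2 - b) ^ 2 * X ^ 2 := by
      rw [div_pow]
      field_simp
    have e2 : X ^ 6 * ((Y ^ 2 / X ^ 2) ^ 3 + -2 * a * (Y ^ 2 / X ^ 2) ^ 2 +
        (a ^ 2 - 4 * b) * (Y ^ 2 / X ^ 2)) =
        Y ^ 2 * (Y ^ 4 + (-2 * a) * Y ^ 2 * X ^ 2 + (a ^ 2 - 4 * b) * X ^ 4) := by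
      rw [div_pow, div_pow]
      field_simp
      ring
    rw [e1, e2, h6]

end Pool.Agent.G02.H46
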